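import Pool.Agent.RD68.Bound

set_option autoImplicit false

namespace Pool.Agent.Results.MP_738f58_lc.ExplicitRecDim

/-- `(P, r)` is a recursive ordered set: the ground set `P` and the relation `r` are computable,
and `r` is a partial order on `P`. -/
structure RecOrder (P : Set ℕ) (r : ℕ → ℕ → Prop) : Prop where
  ground : ComputablePred (fun x : ℕ => x ∈ P)
  rel : ComputablePred (fun p : ℕ × ℕ => r p.1 p.2)
  refl : ∀ x ∈ P, r x x
  antisymm : ∀ x ∈ P, ∀ y ∈ P, r x y → r y x → x = y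
  trans : ∀ x ∈ P, ∀ y ∈ P, ∀ z ∈ P, r x y → r y z → r x z

/-- `L` is a recursive linear extension of `(P, r)`. -/
structure RecLinearExtension (P : Set ℕ) (r L : ℕ → ℕ → Prop) : Prop where
  order : RecOrder P L
  total : ∀ x ∈ P, ∀ y ∈ P, L x y ∨ L y x
  extends_rel : ∀ x ∈ P, ∀ y ∈ P, r x y → L x y

/-- The recursive dimension of `(P, r)`: the least number of recursive linear extensions whose
intersection is `r` on `P`; it is `⊤` if there is no finite such family. -/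
noncomputable def recDim (P : Set ℕ) (r : ℕ → ℕ → Prop) : ℕ∞ :=
  sInf {t : ℕ∞ | ∃ (n : ℕ) (L : Fin n → ℕ → ℕ → Prop), t = (n : ℕ∞) ∧
    (∀ i, RecLinearExtension P r (L i)) ∧ ∀ x ∈ P, ∀ y ∈ P, (r x y ↔ ∀ i, L i x y)}

/-- The order of the 3-crown on `Fin 3 × Bool`, with `a i = (i, false)` and `b i = (i, true)`:
`a i < b j` exactly when `i ≠ j`, and there are no other strict comparabilities. -/
def crownLE (x y : Fin 3 × Bool) : Prop := x = y ∨ (x.2 = false ∧ y.2 = true ∧ x.1 ≠ y.1)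

/-- No subset of `P`, with the induced order, is isomorphic to the 3-crown. -/
def ThreeCrownFree (P : Set ℕ) (r : ℕ → ℕ → Prop) : Prop :=
  ¬ ∃ φ : Fin 3 × Bool → ℕ, Function.Injective φ ∧ (∀ x, φ x ∈ P) ∧
    ∀ x y, r (φ x) (φ y) ↔ crownLE x y

/-- `(P, r)` has width at most `w`: every finite antichain in `P` has at most `w` elements. -/
def WidthLE (P : Set ℕ) (r : ℕ → ℕ → Prop) (w : ℕ) : Prop :=
  ∀ s : Finset ℕ, (s : Set ℕ) ⊆ P → IsAntichain r (s : Set ℕ) → s.card ≤ w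

/-- Every recursive 3-crown-free ordered set of width at most `w` has recursive dimension at
most `B ^ B` with `B = 93 ^ (2 ^ w - 1)`. -/
theorem result : ∀ (w : ℕ) (P : Set ℕ) (r : ℕ → ℕ → Prop), RecOrder P r → WidthLE P r w →
    ThreeCrownFree P r →
    recDim P r ≤ (((93 ^ (2 ^ w - 1)) ^ (93 ^ (2 ^ w - 1)) : ℕ) : ℕ∞) := by
  intro w P r hP hw hc
  obtain ⟨d, hd, h⟩ := Pool.Agent.RecDim.mainB w
  obtain ⟨L, h1, h2, h3, h4, h5, h6⟩ := h (fun x => x ∈ P) r hP.ground hP.rel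
    (fun x hx => hP.refl x hx) (fun x y hx hy => hP.antisymm x hx y hy)
    (fun x y z hx hy hz => hP.trans x hx y hy z hz)
    (fun s hs ha => hw s (fun x hx => hs x (Finset.mem_coe.1 hx))
      (fun x hx y hy hxy => (ha x (Finset.mem_coe.1 hx) y (Finset.mem_coe.1 hy) hxy).1)) (by
      rintro ⟨a₁, a₂, a₃, b₁, b₂, b₃, pa₁, pa₂, pa₃, pb₁, pb₂, pb₃, r12, r13, r21, r23, r31, r32,
        ⟨n11, m11⟩, ⟨n22, m22⟩, ⟨n33, m33⟩, ⟨a12, a21⟩, ⟨a13, a31⟩, ⟨a23, a32⟩, ⟨b12, b21⟩,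
        ⟨b13, b31⟩, ⟨b23, b32⟩⟩
      have ra₁ := hP.refl _ pa₁
      have ra₂ := hP.refl _ pa₂
      have ra₃ := hP.refl _ pa₃
      have rb₁ := hP.refl _ pb₁
      have rb₂ := hP.refl _ pb₂
      have rb₃ := hP.refl _ pb₃
      -- the reverse comparabilities fail
      have s21 : ¬ r b₂ a₁ := fun h => n22 (hP.trans _ pa₂ _ pb₃ _ pb₂ r23
        (absurd (hP.trans _ pb₂ _ pa₁ _ pb₃ h r13) b23))
      have s31 : ¬ r b₃ a₁ := fun h => absurd (hP.trans _ pb₃ _ pa₁ _ pb₂ h r12) b32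
      have s12 : ¬ r b₁ a₂ := fun h => absurd (hP.trans _ pb₁ _ pa₂ _ pb₃ h r23) b13
      have s32 : ¬ r b₃ a₂ := fun h => absurd (hP.trans _ pb₃ _ pa₂ _ pb₁ h r21) b31
      have s13 : ¬ r b₁ a₃ := fun h => absurd (hP.trans _ pb₁ _ pa₃ _ pb₂ h r32) b12
      have s23 : ¬ r b₂ a₃ := fun h => absurd (hP.trans _ pb₂ _ pa₃ _ pb₁ h r31) b21
      let A : Fin 3 → ℕ := ![a₁, a₂, a₃]
      let B : Fin 3 → ℕ := ![b₁, b₂, b₃]
      let φ : Fin 3 × Bool → ℕ := fun x => if x.2 then B x.1 else A x.1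
      have hφ : ∀ x y, r (φ x) (φ y) ↔ crownLE x y := by
        rintro ⟨i, s⟩ ⟨j, t⟩
        fin_cases i <;> fin_cases j <;> cases s <;> cases t <;>
          simp [φ, A, B, crownLE, *]
      refine hc ⟨φ, ?_, ?_, hφ⟩
      · intro x y hxy
        have h1 : crownLE x y := (hφ x y).1 (by
          rw [← hxy]
          exact (hφ x x).2 (Or.inl rfl))
        have h2 : crownLE y x := (hφ y x).1 (by
          rw [hxy]
          exact (hφ y y).2 (Or.inl rfl))
        rcases h1 with h1 | ⟨h1, h1', _⟩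
        · exact h1
        · rcases h2 with h2 | ⟨h2, h2', _⟩
          · exact h2.symm
          · rw [h1'] at h2
            exact absurd h2 (by decide)
      · rintro ⟨i, s⟩
        fin_cases i <;> cases s <;> simp [φ, A, B, *])
  have hle : recDim P r ≤ (d : ℕ∞) := by
    refine sInf_le ?_
    refine ⟨d, L, rfl, fun i => ⟨⟨hP.ground, h1 i, fun x hx => h2 i x hx,
      fun x hx y hy => h3 i x y hx hy, fun x hx y hy z hz => h4 i x y z hx hy hz⟩,
      fun x hx y hy => h5 i x y hx hy, fun x hx y hy hr => (h6 x y hx hy).1 hr i⟩,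
      fun x hx y hy => h6 x y hx hy⟩
  refine hle.trans ?_
  exact_mod_cast hd

end Pool.Agent.Results.MP_738f58_lc.ExplicitRecDim
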